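import Pool.Agent.H310.Dist.Main

set_option autoImplicit false

/-!
Carathéodory family of the ball: explicit and asymptotic bounds for the distortion.
-/

namespace Pool.Agent.H310.Dist

open Metric Set Filter Topology Pool.Agent.Y965.CF
open Pool.Agent.Results.MP_ea326e_an.AllHilbertSpaces (caratheodory growth valuesAt)

universe u

variable {E : Type u} [NormedAddCommGroup E] [InnerProductSpace ℂ E]

theorem rpow_five_half {x : ℝ} (hx : 0 < x) : x ^ (5 / 2 : ℝ) = x ^ 2 * √x := by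
  rw [Real.sqrt_eq_rpow, ← Real.rpow_natCast x 2, ← Real.rpow_add hx]
  norm_num

theorem rpow_three_half {x : ℝ} (hx : 0 < x) : x ^ (3 / 2 : ℝ) = x * √x := by
  rw [Real.sqrt_eq_rpow]
  conv_rhs => rw [← Real.rpow_one x, ← Real.rpow_mul hx.le, ← Real.rpow_add hx]
  norm_num

theorem lower_explicit (hE : 2 ≤ Module.rank ℂ E) {r : ℝ} (hr : r ∈ Ioo (0 : ℝ) 1) :
    100 * r * √(9 + r) / ((5 + r) ^ 3 * (1 - r) ^ (5 / 2 : ℝ)) ≤ distortion E r := by
  have h0 := hr.1
  have h1 := hr.2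
  have hx : 0 < 1 - r := by linarith
  have h := lower hE hr (b := (4 + r) / 5) ⟨by positivity, by linarith⟩
  refine le_trans ?_ h
  refine le_trans ?_ (Real.le_sqrt_of_sq_le (le_add_of_nonneg_left (sq_nonneg _)))
  have e1 : 1 - ((4 + r) / 5) ^ 2 = (1 - r) * (9 + r) / 5 ^ 2 := by ring
  have e2 : 1 - (4 + r) / 5 * r = (1 - r) * (5 + r) / 5 := by ring
  rw [e1, e2, Real.sqrt_div' _ (by norm_num), Real.sqrt_sq (by norm_num), Real.sqrt_mul hx.le,
    rpow_five_half hx]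
  have hs : 0 < √(1 - r) := Real.sqrt_pos.2 hx
  have hss : √(1 - r) * √(1 - r) = 1 - r := Real.mul_self_sqrt hx.le
  apply le_of_eq
  rw [div_eq_div_iff (by positivity) (by positivity)]
  have : √(1 - r) * √(1 - r) = 1 - r := hss
  have h3 : (100 * r * √(9 + r)) * ((1 - r) * (5 + r) / 5) ^ 3 =
      4 * (√(9 + r) / 5) * r * ((5 + r) ^ 3 * ((1 - r) ^ 2 * (1 - r))) := by ring
  rw [h3]
  calc 4 * (√(9 + r) / 5) * r * ((5 + r) ^ 3 * ((1 - r) ^ 2 * (1 - r)))
      = 4 * (√(9 + r) / 5) * r * ((5 + r) ^ 3 * ((1 - r) ^ 2 * (√(1 - r) * √(1 - r)))) := by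
        rw [hss]
    _ = _ := by ring

theorem tendsto_lower :
    Tendsto (fun r : ℝ => 100 * r * √(9 + r) / (5 + r) ^ 3) (𝓝[<] 1) (𝓝 (25 * √10 / 54)) := by
  have h : ContinuousAt (fun r : ℝ => 100 * r * √(9 + r) / (5 + r) ^ 3) 1 := by
    apply ContinuousAt.div
    · fun_prop
    · fun_prop
    · norm_num
  have h2 := h.tendsto.mono_left (nhdsWithin_le_nhds (s := Iio (1 : ℝ)))
  convert h2 using 2
  norm_num
  ring

theorem tendsto_upper (hE : 2 ≤ Module.rank ℂ E) :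
    Tendsto (fun r : ℝ => (1 - r) ^ (5 / 2 : ℝ) *
      (growth E (r + 2 / 5 * (1 - r)) / (2 / 5 * (1 - r)))) (𝓝[<] 1) (𝓝 (25 * √10 / 16)) := by
  have h := ((Pool.Agent.Results.MP_ea326e_an.AllHilbertSpaces.result.{u}).2.2.2 E hE).2.2
  have hρ : Tendsto (fun r : ℝ => r + 2 / 5 * (1 - r)) (𝓝[<] 1) (𝓝[<] 1) := by
    apply tendsto_nhdsWithin_iff.2
    constructor
    · have : ContinuousAt (fun r : ℝ => r + 2 / 5 * (1 - r)) 1 := by fun_prop
      have h2 := this.tendsto.mono_left (nhdsWithin_le_nhds (s := Iio (1 : ℝ)))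
      simpa using h2
    · filter_upwards [self_mem_nhdsWithin] with r hr
      simp only [mem_Iio] at hr ⊢
      linarith
  have h2 := (h.comp hρ).const_mul (25 * √15 / 18)
  have e : 25 * √15 / 18 * (3 * √6 / 8) = 25 * √10 / 16 := by
    have h90 : √15 * √6 = 3 * √10 := by
      rw [← Real.sqrt_mul (by norm_num), show (15 * 6 : ℝ) = 3 ^ 2 * 10 by norm_num,
        Real.sqrt_mul (by norm_num), Real.sqrt_sq (by norm_num)]
    linear_combination 25 / 48 * h90
  rw [e] at h2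
  refine h2.congr' ?_
  filter_upwards [self_mem_nhdsWithin] with r hr
  have hx : 0 < 1 - r := by
    simp only [mem_Iio] at hr
    linarith
  simp only [Function.comp_apply]
  have e3 : 1 - (r + 2 / 5 * (1 - r)) = 3 / 5 * (1 - r) := by ring
  rw [e3, rpow_five_half hx, rpow_three_half (by positivity), Real.sqrt_mul (by norm_num)]
  have e4 : √15 * √(3 / 5) = 3 := by
    rw [← Real.sqrt_mul (by norm_num), show (15 * (3 / 5) : ℝ) = 3 ^ 2 by norm_num,
      Real.sqrt_sq (by norm_num)]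
  generalize growth E (r + 2 / 5 * (1 - r)) = g
  have e5 : 25 * √15 / 18 * (3 / 5 * (1 - r) * (√(3 / 5) * √(1 - r)) * g) =
      (√15 * √(3 / 5)) * (5 / 6) * (1 - r) * √(1 - r) * g := by ring
  rw [e5, e4]
  field_simp
  ring

theorem asymptotic (hE : 2 ≤ Module.rank ℂ E) {ε : ℝ} (hε : 0 < ε) :
    ∀ᶠ r : ℝ in 𝓝[<] 1, 25 * √10 / 54 - ε ≤ (1 - r) ^ (5 / 2 : ℝ) * distortion E r ∧
      (1 - r) ^ (5 / 2 : ℝ) * distortion E r ≤ 25 * √10 / 16 + ε := by
  have h1 := (tendsto_order.1 tendsto_lower).1 (25 * √10 / 54 - ε) (by linarith)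
  have h2 := (tendsto_order.1 (tendsto_upper (E := E) hE)).2 (25 * √10 / 16 + ε) (by linarith)
  have h3 : ∀ᶠ r : ℝ in 𝓝[<] 1, r ∈ Ioo (0 : ℝ) 1 := Ioo_mem_nhdsLT one_pos
  filter_upwards [h1, h2, h3] with r k1 k2 k3
  have hx : 0 < 1 - r := by linarith [k3.2]
  have hpos : 0 < (1 - r) ^ (5 / 2 : ℝ) := Real.rpow_pos_of_pos hx _
  constructor
  · have h4 := mul_le_mul_of_nonneg_left (lower_explicit hE k3) hpos.le
    have h5 : (1 - r) ^ (5 / 2 : ℝ) * (100 * r * √(9 + r) / ((5 + r) ^ 3 * (1 - r) ^ (5 / 2 : ℝ))) =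
        100 * r * √(9 + r) / (5 + r) ^ 3 := by
      have h6 : (5 + r) ≠ 0 := by linarith [k3.1]
      field_simp
    rw [h5] at h4
    linarith
  · have h4 := mul_le_mul_of_nonneg_left
      (upper hE k3 (δ := 2 / 5 * (1 - r)) (by positivity) (by linarith)) hpos.le
    linarith

end Pool.Agent.H310.Dist
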