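import Pool.Agent.H310.Dist.Upper2

set_option autoImplicit false

/-!
Carathéodory family of the ball: asymptotic form of the sharper upper bound of the distortion.
-/

namespace Pool.Agent.H310.Dist

open Metric Set Filter Topology
open Pool.Agent.Results.MP_ea326e_an.AllHilbertSpaces (caratheodory growth valuesAt)

universe u

variable {E : Type u} [NormedAddCommGroup E] [InnerProductSpace ℂ E]

theorem upper2_eq {r : ℝ} (hr : r ∈ Ioo (0 : ℝ) 1) (m m' : ℝ) :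
    (1 - r) ^ (5 / 2 : ℝ) * ((1 / √(1 - ((7 + r) / 8) ^ 2) +
      2 * (1 - (r / ((7 + r) / 8)) ^ 2) / (r / ((7 + r) / 8)) ^ 3 * m) /
        ((7 + r) / 8 * (1 - (r / ((7 + r) / 8)) ^ 2) ^ 2 / (r / ((7 + r) / 8)) ^ 2) +
        18 / (1 - r) ^ 2 + m' / √(((1 + r) / 2) ^ 2 - r ^ 2)) =
      4096 * r ^ 2 * (7 + r) / (49 * √(15 + r) * (7 + 9 * r) ^ 2) +
        2 * (7 + r) ^ 2 / (7 * r * (7 + 9 * r)) * ((1 - r) ^ (3 / 2 : ℝ) * m) + 18 * √(1 - r) +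
        4 * √2 * √(1 - r) / √(1 + 3 * r) * ((1 - (1 + r) / 2) ^ (3 / 2 : ℝ) * m') := by
  have h0 := hr.1
  have hx : 0 < 1 - r := by linarith [hr.2]
  have e1 : √(1 - ((7 + r) / 8) ^ 2) = √(1 - r) * √(15 + r) / 8 := by
    rw [show 1 - ((7 + r) / 8) ^ 2 = (1 - r) * (15 + r) / 8 ^ 2 by ring,
      Real.sqrt_div' _ (by norm_num), Real.sqrt_sq (by norm_num), Real.sqrt_mul hx.le]
  have e2 : √(((1 + r) / 2) ^ 2 - r ^ 2) = √(1 - r) * √(1 + 3 * r) / 2 := by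
    rw [show ((1 + r) / 2) ^ 2 - r ^ 2 = (1 - r) * (1 + 3 * r) / 2 ^ 2 by ring,
      Real.sqrt_div' _ (by norm_num), Real.sqrt_sq (by norm_num), Real.sqrt_mul hx.le]
  have e3 : (1 - (1 + r) / 2) ^ (3 / 2 : ℝ) = (1 - r) / 2 * (√(1 - r) / √2) := by
    rw [show 1 - (1 + r) / 2 = (1 - r) / 2 by ring, rpow_three_half (by positivity),
      Real.sqrt_div' _ (by norm_num)]
  have e4 : 1 - (r / ((7 + r) / 8)) ^ 2 = 7 * (1 - r) * (7 + 9 * r) / (7 + r) ^ 2 := by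
    field_simp
    ring
  rw [e1, e2, e3, e4, rpow_five_half hx, rpow_three_half hx]
  have hu : 0 < √(1 - r) := Real.sqrt_pos.2 hx
  have huu : √(1 - r) ^ 2 = 1 - r := Real.sq_sqrt hx.le
  have hw : 0 < √(15 + r) := Real.sqrt_pos.2 (by linarith)
  have hv : 0 < √(1 + 3 * r) := Real.sqrt_pos.2 (by linarith)
  have h2 : 0 < √(2 : ℝ) := Real.sqrt_pos.2 (by norm_num)
  have h79 : 0 < 7 + 9 * r := by linarith
  have h7 : 0 < 7 + r := by linarith
  generalize √(1 - r) = p at hu huu ⊢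
  generalize √(15 + r) = w at hw ⊢
  generalize √(1 + 3 * r) = v at hv ⊢
  generalize √(2 : ℝ) = q at h2 ⊢
  have pA : (1 - r) ^ 2 * p * ((1 / (p * w / 8)) /
      ((7 + r) / 8 * (7 * (1 - r) * (7 + 9 * r) / (7 + r) ^ 2) ^ 2 / (r / ((7 + r) / 8)) ^ 2)) =
      4096 * r ^ 2 * (7 + r) / (49 * w * (7 + 9 * r) ^ 2) := by
    field_simp
    ring
  have pB : (1 - r) ^ 2 * p * ((2 * (7 * (1 - r) * (7 + 9 * r) / (7 + r) ^ 2) /
      (r / ((7 + r) / 8)) ^ 3 * m) /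
      ((7 + r) / 8 * (7 * (1 - r) * (7 + 9 * r) / (7 + r) ^ 2) ^ 2 / (r / ((7 + r) / 8)) ^ 2)) =
      2 * (7 + r) ^ 2 / (7 * r * (7 + 9 * r)) * ((1 - r) * p * m) := by
    field_simp
    try ring
  have pC : (1 - r) ^ 2 * p * (18 / (1 - r) ^ 2) = 18 * p := by
    field_simp
  have pD : (1 - r) ^ 2 * p * (m' / (p * v / 2)) =
      4 * q * p / v * ((1 - r) / 2 * (p / q) * m') := by
    field_simp
    rw [huu]
    ring
  rw [← pA, ← pB, ← pC, ← pD]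
  ring

theorem tendsto_upper2 (hE : 2 ≤ Module.rank ℂ E) :
    Tendsto (fun r : ℝ => 4096 * r ^ 2 * (7 + r) / (49 * √(15 + r) * (7 + 9 * r) ^ 2) +
        2 * (7 + r) ^ 2 / (7 * r * (7 + 9 * r)) * ((1 - r) ^ (3 / 2 : ℝ) * growth E r) +
        18 * √(1 - r) +
        4 * √2 * √(1 - r) / √(1 + 3 * r) *
          ((1 - (1 + r) / 2) ^ (3 / 2 : ℝ) * growth E ((1 + r) / 2)))
      (𝓝[<] 1) (𝓝 (32 / 49 + 3 * √6 / 7)) := by
  have h := ((Pool.Agent.Results.MP_ea326e_an.AllHilbertSpaces.result.{u}).2.2.2 E hE).2.2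
  have hρ : Tendsto (fun r : ℝ => (1 + r) / 2) (𝓝[<] 1) (𝓝[<] 1) := by
    apply tendsto_nhdsWithin_iff.2
    constructor
    · have : ContinuousAt (fun r : ℝ => (1 + r) / 2) 1 := by fun_prop
      have h2 := this.tendsto.mono_left (nhdsWithin_le_nhds (s := Iio (1 : ℝ)))
      convert h2 using 2
      norm_num
    · filter_upwards [self_mem_nhdsWithin] with r hr
      simp only [mem_Iio] at hr ⊢
      linarith
  have h' := h.comp hρ
  have w15 : √(15 + 1 : ℝ) = 4 := by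
    rw [show (15 + 1 : ℝ) = 4 ^ 2 by norm_num, Real.sqrt_sq (by norm_num)]
  have w3 : √(1 + 3 * 1 : ℝ) = 2 := by
    rw [show (1 + 3 * 1 : ℝ) = 2 ^ 2 by norm_num, Real.sqrt_sq (by norm_num)]
  have a1 : Tendsto (fun r : ℝ => 4096 * r ^ 2 * (7 + r) / (49 * √(15 + r) * (7 + 9 * r) ^ 2))
      (𝓝[<] 1) (𝓝 (32 / 49)) := by
    have : ContinuousAt
        (fun r : ℝ => 4096 * r ^ 2 * (7 + r) / (49 * √(15 + r) * (7 + 9 * r) ^ 2)) 1 := by
      apply ContinuousAt.div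
      · fun_prop
      · fun_prop
      · rw [w15]; norm_num
    have h2 := this.tendsto.mono_left (nhdsWithin_le_nhds (s := Iio (1 : ℝ)))
    convert h2 using 2
    rw [w15]
    norm_num
  have a2 : Tendsto (fun r : ℝ => 2 * (7 + r) ^ 2 / (7 * r * (7 + 9 * r))) (𝓝[<] 1)
      (𝓝 (8 / 7)) := by
    have : ContinuousAt (fun r : ℝ => 2 * (7 + r) ^ 2 / (7 * r * (7 + 9 * r))) 1 := by
      apply ContinuousAt.div
      · fun_prop
      · fun_prop
      · norm_num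
    have h2 := this.tendsto.mono_left (nhdsWithin_le_nhds (s := Iio (1 : ℝ)))
    convert h2 using 2
    norm_num
  have a3 : Tendsto (fun r : ℝ => 18 * √(1 - r)) (𝓝[<] 1) (𝓝 0) := by
    have : ContinuousAt (fun r : ℝ => 18 * √(1 - r)) 1 := by fun_prop
    have h2 := this.tendsto.mono_left (nhdsWithin_le_nhds (s := Iio (1 : ℝ)))
    simpa using h2
  have a4 : Tendsto (fun r : ℝ => 4 * √2 * √(1 - r) / √(1 + 3 * r)) (𝓝[<] 1) (𝓝 0) := by
    have : ContinuousAt (fun r : ℝ => 4 * √2 * √(1 - r) / √(1 + 3 * r)) 1 := by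
      apply ContinuousAt.div
      · fun_prop
      · fun_prop
      · rw [w3]; norm_num
    have h2 := this.tendsto.mono_left (nhdsWithin_le_nhds (s := Iio (1 : ℝ)))
    simpa using h2
  have h5 := ((a1.add (a2.mul h)).add a3).add (a4.mul h')
  have e : (32 / 49 + 8 / 7 * (3 * √6 / 8) + 0 + 0 * (3 * √6 / 8) : ℝ) =
      32 / 49 + 3 * √6 / 7 := by ring
  rw [e] at h5
  exact h5

theorem upper_explicit (hE : 2 ≤ Module.rank ℂ E) {r : ℝ} (hr : r ∈ Ioo (0 : ℝ) 1) :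
    (1 - r) ^ (5 / 2 : ℝ) * distortion E r ≤
      4096 * r ^ 2 * (7 + r) / (49 * √(15 + r) * (7 + 9 * r) ^ 2) +
        2 * (7 + r) ^ 2 / (7 * r * (7 + 9 * r)) * ((1 - r) ^ (3 / 2 : ℝ) * growth E r) +
        18 * √(1 - r) +
        4 * √2 * √(1 - r) / √(1 + 3 * r) *
          ((1 - (1 + r) / 2) ^ (3 / 2 : ℝ) * growth E ((1 + r) / 2)) := by
  have hx : 0 < 1 - r := by linarith [hr.2]
  have hpos : 0 < (1 - r) ^ (5 / 2 : ℝ) := Real.rpow_pos_of_pos hx _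
  have h4 := mul_le_mul_of_nonneg_left (upper2 hE (r := r) (ρ := (7 + r) / 8) (ρ' := (1 + r) / 2)
    hr.1 (by linarith) (by linarith) (by linarith) (by linarith)) hpos.le
  rwa [upper2_eq hr] at h4

theorem asymptotic2 (hE : 2 ≤ Module.rank ℂ E) {ε : ℝ} (hε : 0 < ε) :
    ∀ᶠ r : ℝ in 𝓝[<] 1, 25 * √10 / 54 - ε ≤ (1 - r) ^ (5 / 2 : ℝ) * distortion E r ∧
      (1 - r) ^ (5 / 2 : ℝ) * distortion E r ≤ 32 / 49 + 3 * √6 / 7 + ε := by
  have h2 := (tendsto_order.1 (tendsto_upper2 (E := E) hE)).2 (32 / 49 + 3 * √6 / 7 + ε)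
    (by linarith)
  have h3 : ∀ᶠ r : ℝ in 𝓝[<] 1, r ∈ Ioo (0 : ℝ) 1 := Ioo_mem_nhdsLT one_pos
  filter_upwards [asymptotic (E := E) hE hε, h2, h3] with r k1 k2 k3
  exact ⟨k1.1, (upper_explicit hE k3).trans k2.le⟩

end Pool.Agent.H310.Dist
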