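import Pool.Agent.H310.Dist.Main

set_option autoImplicit false

/-!
Carathéodory family of the ball: the certificate built on a disc with a double zero.
-/

namespace Pool.Agent.H310.Dist

open Metric Set Filter Topology Pool.Agent.Helper540
open Pool.Agent.Results.MP_ea326e_an.AllHilbertSpaces (caratheodory growth valuesAt)

universe u

variable {E : Type u} [NormedAddCommGroup E] [InnerProductSpace ℂ E]

theorem cert2 {h : E → E} (hh : h ∈ caratheodory E) {e y : E} (he : ‖e‖ = 1)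
    (hey : inner ℂ e y = (0 : ℂ)) (hy : ‖y‖ ≤ 1) {s ρ σ : ℝ} (hs : 0 < s) (hs1 : s < 1)
    (hρ : 0 < ρ) (hσ : 0 ≤ σ) (hρσ : ρ ^ 2 + σ ^ 2 < 1) :
    σ * (2 * (1 - s ^ 2) / s ^ 3 * (inner ℂ y (h (((s * ρ : ℝ) : ℂ) • e))).re -
      ρ * (1 - s ^ 2) ^ 2 / s ^ 2 *
        (inner ℂ y (fderiv ℂ h (((s * ρ : ℝ) : ℂ) • e) e)).re) ≤ ρ ^ 2 + σ ^ 2 := by
  set zz : ℂ → E := fun ξ => ((ρ : ℂ) * ξ) • e + ((ξ - s) ^ 2 * (σ * ξ / (1 - s * ξ) ^ 2)) • y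
    with hzz
  have hsc : (s : ℂ) ≠ 0 := by exact_mod_cast hs.ne'
  have hee : inner ℂ e e = (1 : ℂ) := by rw [inner_self_eq_norm_sq_to_K, he]; norm_num
  have hye : inner ℂ y e = (0 : ℂ) := by rw [← inner_conj_symm, hey, map_zero]
  have hyy : inner ℂ y y = ((‖y‖ ^ 2 : ℝ) : ℂ) := by
    rw [inner_self_eq_norm_sq_to_K]
    simp
  have hX : ∀ ζ : ℂ, ‖ζ‖ ≤ 1 → ‖ζ - (s : ℂ)‖ ≤ ‖1 - (s : ℂ) * ζ‖ := by
    intro ζ hζ
    have h2 := normSq_X (s := s) ζ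
    have h3 : 0 ≤ (1 - s ^ 2) * (1 - ‖ζ‖ ^ 2) := by
      apply mul_nonneg
      · nlinarith
      · nlinarith [norm_nonneg ζ]
    have h4 : ‖(s : ℂ) - ζ‖ ^ 2 ≤ ‖1 - (s : ℂ) * ζ‖ ^ 2 := by linarith
    rw [norm_sub_rev]
    exact (pow_le_pow_iff_left₀ (norm_nonneg _) (norm_nonneg _) two_ne_zero).1 h4
  have hX0 : ∀ ζ : ℂ, ‖ζ‖ ≤ 1 → (1 - (s : ℂ) * ζ) ≠ 0 := by
    intro ζ hζ h
    have h2 : (s : ℂ) * ζ = 1 := by linear_combination -h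
    have h3 : ‖(s : ℂ) * ζ‖ = 1 := by rw [h2, norm_one]
    rw [norm_mul, Complex.norm_real, Real.norm_of_nonneg hs.le] at h3
    nlinarith [norm_nonneg ζ]
  have hzn : ∀ ζ : ℂ, ‖ζ‖ ≤ 1 → ‖zz ζ‖ < 1 := by
    intro ζ hζ
    have h1 : ‖zz ζ‖ ^ 2 = ‖(ρ : ℂ) * ζ‖ ^ 2 +
        ‖(ζ - s) ^ 2 * (σ * ζ / (1 - s * ζ) ^ 2)‖ ^ 2 * ‖y‖ ^ 2 := by
      simp only [hzz]
      rw [norm_pair he hey]
    have h2 : ‖(ρ : ℂ) * ζ‖ ≤ ρ := by
      rw [norm_mul, Complex.norm_real, Real.norm_of_nonneg hρ.le]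
      exact mul_le_of_le_one_right hρ.le hζ
    have hXp : 0 < ‖1 - (s : ℂ) * ζ‖ := norm_pos_iff.2 (hX0 ζ hζ)
    have h3 : ‖(ζ - s) ^ 2 * (σ * ζ / (1 - s * ζ) ^ 2)‖ ≤ σ := by
      rw [norm_mul, norm_div, norm_mul, norm_pow, norm_pow, Complex.norm_real,
        Real.norm_of_nonneg hσ, mul_div_assoc', div_le_iff₀ (by positivity)]
      have h4 : ‖ζ - (s : ℂ)‖ ^ 2 ≤ ‖1 - (s : ℂ) * ζ‖ ^ 2 :=
        pow_le_pow_left₀ (norm_nonneg _) (hX ζ hζ) 2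
      calc ‖ζ - (s : ℂ)‖ ^ 2 * (σ * ‖ζ‖) ≤ ‖1 - (s : ℂ) * ζ‖ ^ 2 * (σ * 1) := by
            apply mul_le_mul h4 (mul_le_mul_of_nonneg_left hζ hσ) (by positivity) (by positivity)
        _ = σ * ‖1 - (s : ℂ) * ζ‖ ^ 2 := by ring
    have h5 : ‖(ρ : ℂ) * ζ‖ ^ 2 ≤ ρ ^ 2 := pow_le_pow_left₀ (norm_nonneg _) h2 2
    have h6 : ‖(ζ - s) ^ 2 * (σ * ζ / (1 - s * ζ) ^ 2)‖ ^ 2 * ‖y‖ ^ 2 ≤ σ ^ 2 * 1 := by
      apply mul_le_mul (pow_le_pow_left₀ (norm_nonneg _) h3 2) _ (by positivity) (by positivity)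
      nlinarith [norm_nonneg y]
    have h7 : ‖zz ζ‖ ^ 2 < 1 := by rw [h1]; linarith
    nlinarith [norm_nonneg (zz ζ)]
  have hzd : ∀ ζ : ℂ, ‖ζ‖ ≤ 1 → DifferentiableAt ℂ zz ζ := by
    intro ζ hζ
    have h2 : (1 - (s : ℂ) * ζ) ^ 2 ≠ 0 := pow_ne_zero 2 (hX0 ζ hζ)
    simp only [hzz]
    apply DifferentiableAt.add
    · fun_prop
    · apply DifferentiableAt.smul_const
      apply DifferentiableAt.mul (by fun_prop)
      exact DifferentiableAt.div (by fun_prop) (by fun_prop) h2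
  have hgd : ∀ ζ ∈ closedBall (0 : ℂ) 1, DifferentiableAt ℂ (fun ζ => h (zz ζ)) ζ := by
    intro ζ hζ
    have hζ' : ‖ζ‖ ≤ 1 := by simpa using hζ
    exact (diffAt hh (hzn ζ hζ')).comp ζ (hzd ζ hζ')
  set aF : ℂ → ℂ := fun ζ => inner ℂ e (h (zz ζ)) with haF
  set bF : ℂ → ℂ := fun ζ => inner ℂ y (h (zz ζ)) with hbF
  have haD : ∀ ζ ∈ closedBall (0 : ℂ) 1, DifferentiableAt ℂ aF ζ := fun ζ hζ =>
    ((innerSL ℂ e).differentiableAt).comp ζ (hgd ζ hζ)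
  have hbD : ∀ ζ ∈ closedBall (0 : ℂ) 1, DifferentiableAt ℂ bF ζ := fun ζ hζ =>
    ((innerSL ℂ y).differentiableAt).comp ζ (hgd ζ hζ)
  have hzz0 : zz 0 = 0 := by simp [hzz]
  have haF0 : aF 0 = 0 := by simp [haF, hzz0, hh.2.1]
  have hbF0 : bF 0 = 0 := by simp [hbF, hzz0, hh.2.1]
  have hzder0 : HasDerivAt zz ((ρ : ℂ) • e + ((s : ℂ) ^ 2 * σ) • y) 0 := by
    have h1 : HasDerivAt (fun ξ : ℂ => (ρ : ℂ) * ξ) (ρ : ℂ) 0 := by
      simpa using (hasDerivAt_id (0 : ℂ)).const_mul (ρ : ℂ)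
    have h2 : HasDerivAt (fun ξ : ℂ => (ξ - s) ^ 2 * (σ * ξ / (1 - s * ξ) ^ 2))
        ((s : ℂ) ^ 2 * σ) 0 := by
      have h3 : HasDerivAt (fun ξ : ℂ => ξ * ((ξ - s) ^ 2 * (σ / (1 - s * ξ) ^ 2)))
          (1 * ((0 - (s : ℂ)) ^ 2 * (σ / (1 - s * 0) ^ 2)) + 0 *
            deriv (fun ξ : ℂ => (ξ - s) ^ 2 * (σ / (1 - s * ξ) ^ 2)) 0) 0 := by
        apply (hasDerivAt_id (0 : ℂ)).mul
        apply DifferentiableAt.hasDerivAt
        apply DifferentiableAt.mul (by fun_prop)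
        exact DifferentiableAt.div (by fun_prop) (by fun_prop) (by simp)
      refine (h3.congr_deriv (by ring)).congr_of_eventuallyEq (Eventually.of_forall fun ξ => ?_)
      ring
    exact (h1.smul_const e).add (h2.smul_const y)
  have hsn : ‖(s : ℂ)‖ ≤ 1 := by
    rw [Complex.norm_real, Real.norm_of_nonneg hs.le]; exact hs1.le
  have hzders : HasDerivAt zz ((ρ : ℂ) • e) s := by
    have h1 : HasDerivAt (fun ξ : ℂ => (ρ : ℂ) * ξ) (ρ : ℂ) s := by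
      simpa using (hasDerivAt_id (s : ℂ)).const_mul (ρ : ℂ)
    have h2 : HasDerivAt (fun ξ : ℂ => (ξ - s) ^ 2 * (σ * ξ / (1 - s * ξ) ^ 2)) 0 s := by
      have h4 : HasDerivAt (fun ξ : ℂ => (ξ - s) ^ 2) 0 s := by
        have h5 := ((hasDerivAt_id (s : ℂ)).sub_const (s : ℂ)).fun_pow 2
        simpa using h5
      have h6 : DifferentiableAt ℂ (fun ξ : ℂ => σ * ξ / (1 - s * ξ) ^ 2) s :=
        DifferentiableAt.div (by fun_prop) (by fun_prop) (pow_ne_zero 2 (hX0 _ hsn))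
      have h7 := h4.mul h6.hasDerivAt
      refine h7.congr_deriv ?_
      simp
    have h8 := (h1.smul_const e).add (h2.smul_const y)
    refine h8.congr_deriv ?_
    rw [zero_smul, add_zero]
  have hzs : zz s = ((s * ρ : ℝ) : ℂ) • e := by
    simp only [hzz]
    rw [sub_self, zero_pow two_ne_zero, zero_mul, zero_smul, add_zero]
    congr 1
    push_cast
    ring
  have hgder : HasDerivAt (fun ζ => h (zz ζ)) ((ρ : ℂ) • e + ((s : ℂ) ^ 2 * σ) • y) 0 := by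
    have h2 : HasFDerivAt h (ContinuousLinearMap.id ℂ E) (zz 0) := by
      rw [hzz0, ← hh.2.2.1]
      exact (diffAt hh (by simp)).hasFDerivAt
    have h3 := h2.comp_hasDerivAt 0 hzder0
    simpa [Function.comp_def] using h3
  have hgders : HasDerivAt (fun ζ => h (zz ζ))
      ((ρ : ℂ) • fderiv ℂ h (((s * ρ : ℝ) : ℂ) • e) e) s := by
    have h2 : HasFDerivAt h (fderiv ℂ h (zz s)) (zz s) := (diffAt hh (hzn _ hsn)).hasFDerivAt
    have h3 := h2.comp_hasDerivAt (s : ℂ) hzders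
    rw [map_smul, hzs] at h3
    exact h3
  have hader : deriv aF 0 = ρ := by
    have h2 : HasDerivAt aF (inner ℂ e ((ρ : ℂ) • e + ((s : ℂ) ^ 2 * σ) • y)) 0 :=
      ((innerSL ℂ e).hasFDerivAt).comp_hasDerivAt 0 hgder
    rw [h2.deriv, inner_add_right, inner_smul_right, inner_smul_right, hee, hey]
    ring
  have hbder : deriv bF 0 = (s : ℂ) ^ 2 * σ * (‖y‖ ^ 2 : ℝ) := by
    have h2 : HasDerivAt bF (inner ℂ y ((ρ : ℂ) • e + ((s : ℂ) ^ 2 * σ) • y)) 0 :=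
      ((innerSL ℂ y).hasFDerivAt).comp_hasDerivAt 0 hgder
    rw [h2.deriv, inner_add_right, inner_smul_right, inner_smul_right, hyy, hye]
    ring
  set V : ℂ := inner ℂ y (h (((s * ρ : ℝ) : ℂ) • e)) with hV
  set W : ℂ := inner ℂ y (fderiv ℂ h (((s * ρ : ℝ) : ℂ) • e) e) with hW
  have hbders : HasDerivAt bF (ρ * W) s := by
    have h2 : HasDerivAt bF (inner ℂ y ((ρ : ℂ) • fderiv ℂ h (((s * ρ : ℝ) : ℂ) • e) e)) s :=
      ((innerSL ℂ y).hasFDerivAt).comp_hasDerivAt (s : ℂ) hgders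
    rwa [inner_smul_right] at h2
  have hbs : bF s = V := by
    simp only [hbF]
    rw [hzs]
  have hds : ∀ (f : ℂ → ℂ) (a b : ℂ), b ≠ a → dslope f a b = (f b - f a) / (b - a) := by
    intro f a b hab
    rw [dslope_of_ne f hab, slope_def_field]
  have hsb : (s : ℂ) ∈ ball (0 : ℂ) 1 := by
    rw [mem_ball_zero_iff, Complex.norm_real, Real.norm_of_nonneg hs.le]; exact hs1
  set K : ℂ → ℂ := dslope bF 0 with hK
  set K' : ℂ → ℂ := dslope K s with hK'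
  set K'' : ℂ → ℂ := dslope K' s with hK''
  have hKD := dslope_diff hbD (mem_ball_self (x := (0 : ℂ)) one_pos)
  have hK'D := dslope_diff hKD hsb
  have hK''D := dslope_diff hK'D hsb
  have hda0 := dslope_diff haD (mem_ball_self (x := (0 : ℂ)) one_pos)
  have hKs : K s = V / s := by
    rw [hK, hds bF 0 s hsc, hbF0, hbs, sub_zero, sub_zero]
  have hK0 : K 0 = (s : ℂ) ^ 2 * σ * (‖y‖ ^ 2 : ℝ) := by
    rw [hK, dslope_same, hbder]
  have hK's : K' s = ρ * W / s - V / s ^ 2 := by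
    rw [hK', dslope_same]
    have h1 : HasDerivAt (fun ξ : ℂ => bF ξ / ξ) ((ρ * W * s - bF s * 1) / s ^ 2) s :=
      hbders.div (hasDerivAt_id (s : ℂ)) hsc
    have h2 : K =ᶠ[𝓝 (s : ℂ)] fun ξ : ℂ => bF ξ / ξ := by
      filter_upwards [isOpen_ne.mem_nhds hsc] with ξ hξ
      rw [hK, hds bF 0 ξ hξ, hbF0, sub_zero, sub_zero]
    rw [h2.deriv_eq, h1.deriv, hbs]
    field_simp
  have hK'0 : K' 0 = (V / s - K 0) / s := by
    rw [hK', hds K s 0 hsc.symm, hKs]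
    field_simp
    ring
  have hK''0 : K'' 0 = (K' s - K' 0) / s := by
    rw [hK'', hds K' s 0 hsc.symm]
    field_simp
    ring
  set c0 : ℂ := K s with hc0
  set c1 : ℂ := K' s with hc1
  set Θ : ℂ → ℂ := fun ζ => ρ * dslope aF 0 ζ + σ * ((starRingEnd ℂ) c0 *
    ((ζ - s) ^ 2 / (1 - s * ζ) ^ 2) + (starRingEnd ℂ) c1 * ((ζ - 2 * s + s ^ 3) / (1 - s * ζ)) +
    c1 * s ^ 2 * ζ + (1 - s * ζ) ^ 2 * K'' ζ) with hΘ
  have hΘD : ∀ ζ ∈ closedBall (0 : ℂ) 1, DifferentiableAt ℂ Θ ζ := by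
    intro ζ hζ
    have h2 := hX0 ζ (by simpa using hζ)
    simp only [hΘ]
    refine DifferentiableAt.add ((hda0 ζ hζ).const_mul _) (DifferentiableAt.const_mul ?_ _)
    refine DifferentiableAt.add (DifferentiableAt.add (DifferentiableAt.add ?_ ?_) ?_) ?_
    · have hp : DifferentiableAt ℂ (fun ζ : ℂ => (ζ - (s : ℂ)) ^ 2 / (1 - (s : ℂ) * ζ) ^ 2) ζ :=
        DifferentiableAt.div (by fun_prop) (by fun_prop) (pow_ne_zero 2 h2)
      exact hp.const_mul _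
    · have hp : DifferentiableAt ℂ (fun ζ : ℂ => (ζ - 2 * (s : ℂ) + (s : ℂ) ^ 3) /
          (1 - (s : ℂ) * ζ)) ζ := DifferentiableAt.div (by fun_prop) (by fun_prop) h2
      exact hp.const_mul _
    · exact differentiableAt_id.const_mul _
    · have hp : DifferentiableAt ℂ (fun ζ : ℂ => (1 - (s : ℂ) * ζ) ^ 2) ζ := by fun_prop
      exact hp.mul (hK''D ζ hζ)
  have hΘpos : ∀ ζ : ℂ, ‖ζ‖ = 1 → 0 ≤ (Θ ζ).re := by
    intro ζ hζ
    have hζ0 : ζ ≠ 0 := by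
      intro h; rw [h, norm_zero] at hζ; exact zero_ne_one hζ
    have hζs : ζ ≠ s := by
      intro h; rw [h, Complex.norm_real, Real.norm_of_nonneg hs.le] at hζ; linarith
    have hX1 := hX0 ζ hζ.le
    have hZ2 : ζ - (s : ℂ) ≠ 0 := sub_ne_zero.2 hζs
    have hcc : ζ * (starRingEnd ℂ) ζ = 1 := by
      rw [Complex.mul_conj, Complex.normSq_eq_norm_sq, hζ]; norm_num
    have hci : (starRingEnd ℂ) ζ = ζ⁻¹ := by
      field_simp
      linear_combination hcc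
    have hcX : (starRingEnd ℂ) (1 - (s : ℂ) * ζ) = (ζ - s) / ζ := by
      simp only [map_sub, map_mul, map_one, Complex.conj_ofReal]
      rw [hci]
      field_simp
    have hcZ : (starRingEnd ℂ) (ζ - (s : ℂ)) = (1 - s * ζ) / ζ := by
      simp only [map_sub, Complex.conj_ofReal]
      rw [hci]
      field_simp
    have e1 : inner ℂ (zz ζ) (h (zz ζ)) = (starRingEnd ℂ) ((ρ : ℂ) * ζ) * aF ζ +
        (starRingEnd ℂ) ((ζ - s) ^ 2 * (σ * ζ / (1 - s * ζ) ^ 2)) * bF ζ := by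
      have h10 : inner ℂ (zz ζ) (h (zz ζ)) = inner ℂ (((ρ : ℂ) * ζ) • e +
        ((ζ - s) ^ 2 * (σ * ζ / (1 - s * ζ) ^ 2)) • y) (h (zz ζ)) := rfl
      rw [h10, inner_add_left, inner_smul_left, inner_smul_left]
    have e2 : (starRingEnd ℂ) ((ζ - s) ^ 2 * (σ * ζ / (1 - s * ζ) ^ 2)) =
        σ * (1 - s * ζ) ^ 2 / (ζ * (ζ - s) ^ 2) := by
      rw [map_mul, map_pow, map_div₀, map_pow, map_mul, Complex.conj_ofReal, hci, hcX, hcZ]
      field_simp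
    have e3 : bF ζ = ζ * (c0 + (ζ - s) * (c1 + (ζ - s) * K'' ζ)) := by
      have k1 : K ζ = bF ζ / ζ := by rw [hK, hds bF 0 ζ hζ0, hbF0, sub_zero, sub_zero]
      have k2 : K' ζ = (K ζ - c0) / (ζ - s) := by rw [hK', hds K s ζ hζs]
      have k3 : K'' ζ = (K' ζ - c1) / (ζ - s) := by rw [hK'', hds K' s ζ hζs]
      rw [k3, k2, k1]
      field_simp
      ring
    have e4 : dslope aF 0 ζ = aF ζ / ζ := by rw [hds aF 0 ζ hζ0, haF0, sub_zero, sub_zero]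
    have e5 : (starRingEnd ℂ) c0 * ((ζ - s) ^ 2 / (1 - s * ζ) ^ 2) =
        (starRingEnd ℂ) (c0 * ((1 - s * ζ) ^ 2 / (ζ - s) ^ 2)) := by
      rw [map_mul, map_div₀, map_pow, map_pow, hcX, hcZ]
      field_simp
    have e6 : (starRingEnd ℂ) c1 * ((ζ - 2 * s + s ^ 3) / (1 - s * ζ)) =
        (starRingEnd ℂ) (c1 * ((1 - s * ζ) ^ 2 / (ζ - s))) - (starRingEnd ℂ) (c1 * s ^ 2 * ζ) := by
      have e61 : ∀ X : ℂ, X ≠ 0 → X = 1 - s * ζ →
          (ζ - 2 * s + s ^ 3) / X = ((ζ - s) / ζ) ^ 2 / (X / ζ) - s ^ 2 * ζ⁻¹ := by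
        intro X hX hXe
        rw [div_eq_iff hX]
        field_simp
        rw [hXe]
        ring
      rw [map_mul, map_div₀, map_pow, hcX, hcZ, map_mul, map_mul, map_pow, Complex.conj_ofReal, hci,
        e61 _ hX1 rfl]
      ring
    have e7 : Θ ζ = inner ℂ (zz ζ) (h (zz ζ)) + σ * (
        ((starRingEnd ℂ) (c0 * ((1 - s * ζ) ^ 2 / (ζ - s) ^ 2)) -
          c0 * ((1 - s * ζ) ^ 2 / (ζ - s) ^ 2)) +
        ((starRingEnd ℂ) (c1 * ((1 - s * ζ) ^ 2 / (ζ - s))) - c1 * ((1 - s * ζ) ^ 2 / (ζ - s))) -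
        ((starRingEnd ℂ) (c1 * s ^ 2 * ζ) - c1 * s ^ 2 * ζ)) := by
      have e9 : (starRingEnd ℂ) ((ρ : ℂ) * ζ) = ρ / ζ := by
        rw [map_mul, Complex.conj_ofReal, hci, div_eq_mul_inv]
      rw [e1, e9, e2, e3]
      simp only [hΘ]
      rw [e4, e5, e6]
      generalize (starRingEnd ℂ) (c0 * ((1 - s * ζ) ^ 2 / (ζ - s) ^ 2)) = t1
      generalize (starRingEnd ℂ) (c1 * ((1 - s * ζ) ^ 2 / (ζ - s))) = t2
      generalize (starRingEnd ℂ) (c1 * s ^ 2 * ζ) = t3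
      field_simp
      ring
    have e8 : (σ * (
        ((starRingEnd ℂ) (c0 * ((1 - s * ζ) ^ 2 / (ζ - s) ^ 2)) -
          c0 * ((1 - s * ζ) ^ 2 / (ζ - s) ^ 2)) +
        ((starRingEnd ℂ) (c1 * ((1 - s * ζ) ^ 2 / (ζ - s))) - c1 * ((1 - s * ζ) ^ 2 / (ζ - s))) -
        ((starRingEnd ℂ) (c1 * s ^ 2 * ζ) - c1 * s ^ 2 * ζ)) : ℂ).re = 0 := by
      generalize (c0 * ((1 - s * ζ) ^ 2 / (ζ - s) ^ 2)) = t1
      generalize (c1 * ((1 - s * ζ) ^ 2 / (ζ - s))) = t2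
      generalize (c1 * s ^ 2 * ζ) = t3
      rw [Complex.re_ofReal_mul]
      simp
    rw [e7, Complex.add_re, e8, add_zero]
    by_cases hz0 : zz ζ = 0
    · rw [hz0]; simp
    · exact (hh.2.2.2 _ (by simpa using hzn ζ hζ.le) hz0).le
  have hfin := re_nonneg_center hΘD hΘpos
  have hΘ0 : Θ 0 = ((ρ ^ 2 + σ ^ 2 * ‖y‖ ^ 2 : ℝ) : ℂ) + σ * ((starRingEnd ℂ) (V / s) * s ^ 2 +
      (starRingEnd ℂ) (ρ * W / s - V / s ^ 2) * (s ^ 3 - 2 * s) +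
      (ρ * W / s - V / s ^ 2 - V / s ^ 2) / s) := by
    simp only [hΘ]
    rw [dslope_same, hader, hK''0, hK'0, hK0, hKs, hK's]
    push_cast
    field_simp
    ring
  have hre : (Θ 0).re = ρ ^ 2 + σ ^ 2 * ‖y‖ ^ 2 - σ * (2 * (1 - s ^ 2) / s ^ 3 * V.re -
      ρ * (1 - s ^ 2) ^ 2 / s ^ 2 * W.re) := by
    have hs2 : ((s : ℂ) ^ 2) = ((s ^ 2 : ℝ) : ℂ) := by push_cast; ring
    have hs3 : ((s : ℂ) ^ 3 - 2 * s) = ((s ^ 3 - 2 * s : ℝ) : ℂ) := by push_cast; ring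
    rw [hΘ0, hs3, hs2]
    simp only [Complex.add_re, Complex.sub_re, Complex.re_ofReal_mul, Complex.div_ofReal_re,
      Complex.re_mul_ofReal, Complex.conj_re, Complex.ofReal_re]
    field_simp
    ring
  rw [hre] at hfin
  have hy2 : σ ^ 2 * ‖y‖ ^ 2 ≤ σ ^ 2 := by
    apply mul_le_of_le_one_right (sq_nonneg _)
    nlinarith [norm_nonneg y]
  linarith

end Pool.Agent.H310.Dist
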