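import Mathlib
import Pool.Graph.R_seed8.Results.MP_ea326e_an.AllHilbertSpaces

set_option autoImplicit false

/-!
Carathéodory family of the ball: the maps
`z ↦ ((1 + b z₁) / (1 - b z₁)) z + (2 √(1 - b²) z₁² / (1 - b z₁)²) f` belong to the family, and their
derivatives at the points of the first axis are computed.
-/

namespace Pool.Agent.H310.Dist

open Metric Set Filter Topology Pool.Agent.Y965.CF
open Pool.Agent.Results.MP_ea326e_an.AllHilbertSpaces (caratheodory growth valuesAt)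

universe u

variable {E : Type u} [NormedAddCommGroup E] [InnerProductSpace ℂ E]

theorem ex_pos {e f : E} (he : ‖e‖ = 1) (hf : ‖f‖ = 1) (hef : inner ℂ e f = (0 : ℂ))
    {b : ℝ} (hb0 : 0 ≤ b) (hb1 : b < 1) {z : E} (hz : z ∈ ball (0 : E) 1)
    (hz0 : z ≠ 0) : 0 < (inner ℂ z (exM e f (2 * √(1 - b ^ 2)) b z)).re := by
  set a := 2 * √(1 - b ^ 2) with ha
  have hb2 : b ^ 2 < 1 := by nlinarith
  have ha0 : 0 ≤ a := by positivity
  have ha2 : a ^ 2 = 4 * (1 - b ^ 2) := by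
    rw [ha, mul_pow, Real.sq_sqrt (by linarith)]; norm_num
  rw [mem_ball_zero_iff] at hz
  have hN0 : 0 < ‖z‖ := norm_pos_iff.2 hz0
  set w : ℂ := inner ℂ e z with hw
  set q : ℂ := inner ℂ f z with hq
  have hzi : ‖w‖ ≤ ‖z‖ := norm_in_le he z
  have hbw : ‖(b : ℂ) * w‖ < 1 := by
    rw [norm_mul, Complex.norm_real, Real.norm_of_nonneg hb0]
    calc b * ‖w‖ ≤ 1 * ‖w‖ := mul_le_mul_of_nonneg_right hb1.le (norm_nonneg _)
      _ < 1 := by rw [one_mul]; exact hzi.trans_lt hz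
  have hden : (1 - (b : ℂ) * w) ≠ 0 := by
    intro h
    have h2 : (b : ℂ) * w = 1 := by linear_combination -h
    rw [h2, norm_one] at hbw
    exact lt_irrefl _ hbw
  set X := ‖w‖ ^ 2 with hX
  set W := ‖q‖ with hW
  have hXW : X + W ^ 2 ≤ ‖z‖ ^ 2 := bessel he hf hef z
  have hX0 : 0 ≤ X := sq_nonneg _
  have hW0 : 0 ≤ W := norm_nonneg _
  have hN1 : ‖z‖ ^ 2 < 1 := by nlinarith
  have hN2 : 0 < ‖z‖ ^ 2 := by positivity
  set N := ‖z‖ ^ 2 with hN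
  have hXN : X ≤ N := by nlinarith [sq_nonneg W]
  have hb20 : 0 ≤ b ^ 2 := sq_nonneg b
  have hbX : b ^ 2 * X < 1 := by nlinarith
  -- the key inequality
  have k1 : a ^ 2 * X * (N - X) ≤ (N - b ^ 2 * X) ^ 2 := by
    rw [ha2]
    nlinarith [sq_nonneg ((1 - b ^ 2) * X - (N - X))]
  have k2 : 0 ≤ N - b ^ 2 * X := by nlinarith
  have k3 : N - b ^ 2 * X ≤ N * (1 - b ^ 2 * X) := by
    have : 0 ≤ b ^ 2 * X * (1 - N) := mul_nonneg (mul_nonneg hb20 hX0) (by linarith)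
    nlinarith
  have k4 : (a * X * W) ^ 2 ≤ X * (N - b ^ 2 * X) ^ 2 := by
    have h1 : (a * X * W) ^ 2 = X * (a ^ 2 * X * W ^ 2) := by ring
    rw [h1]
    apply mul_le_mul_of_nonneg_left _ hX0
    refine le_trans ?_ k1
    exact mul_le_mul_of_nonneg_left (by linarith) (by positivity)
  have k5 : X * (N - b ^ 2 * X) ^ 2 < (N * (1 - b ^ 2 * X)) ^ 2 := by
    have h1 : (N - b ^ 2 * X) ^ 2 ≤ (N * (1 - b ^ 2 * X)) ^ 2 := pow_le_pow_left₀ k2 k3 2
    have h2 : 0 < (N * (1 - b ^ 2 * X)) ^ 2 := by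
      have : 0 < N * (1 - b ^ 2 * X) := mul_pos hN2 (by linarith)
      positivity
    calc X * (N - b ^ 2 * X) ^ 2 ≤ X * (N * (1 - b ^ 2 * X)) ^ 2 :=
          mul_le_mul_of_nonneg_left h1 hX0
      _ < 1 * (N * (1 - b ^ 2 * X)) ^ 2 := mul_lt_mul_of_pos_right (by linarith) h2
      _ = _ := one_mul _
  have k6 : a * X * W < N * (1 - b ^ 2 * X) :=
    lt_of_pow_lt_pow_left₀ 2 (mul_nonneg hN2.le (by linarith)) (k4.trans_lt k5)
  -- the real part
  have hD : 0 < ‖1 - (b : ℂ) * w‖ ^ 2 := by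
    have := norm_pos_iff.2 hden
    positivity
  have e1 : (inner ℂ z (exM e f a b z)).re =
      ((1 + (b : ℂ) * w) / (1 - b * w)).re * N +
      Complex.re ((w * (a * w / (1 - b * w) ^ 2)) * (starRingEnd ℂ) q) := by
    unfold exM
    rw [inner_add_right, inner_smul_right, inner_smul_right,
      inner_self_eq_norm_sq_to_K, Complex.add_re]
    congr 1
    · have : ((‖z‖ : ℂ)) ^ 2 = ((‖z‖ ^ 2 : ℝ) : ℂ) := by push_cast; ring
      rw [show ((RCLike.ofReal ‖z‖ : ℂ)) = (‖z‖ : ℂ) from rfl, this, Complex.re_mul_ofReal]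
    · rw [hq, inner_conj_symm]
  have e2 : ((1 + (b : ℂ) * w) / (1 - b * w)).re =
      (1 - b ^ 2 * X) / ‖1 - (b : ℂ) * w‖ ^ 2 := by
    rw [Pool.Agent.Helper540.re_cayley hden, norm_mul, Complex.norm_real, mul_pow,
      Real.norm_eq_abs, sq_abs]
  have e3 : -(a * X * W / ‖1 - (b : ℂ) * w‖ ^ 2) ≤
      Complex.re ((w * (a * w / (1 - b * w) ^ 2)) * (starRingEnd ℂ) q) := by
    have h1 := (abs_le.1 (Complex.abs_re_le_norm
      ((w * (a * w / (1 - b * w) ^ 2)) * (starRingEnd ℂ) q))).1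
    have h2 : ‖(w * (a * w / (1 - b * w) ^ 2)) * (starRingEnd ℂ) q‖ =
        a * X * W / ‖1 - (b : ℂ) * w‖ ^ 2 := by
      rw [norm_mul, norm_mul, norm_div, norm_mul, norm_pow, RCLike.norm_conj, Complex.norm_real,
        Real.norm_of_nonneg ha0, hX, hW]
      ring
    rw [h2] at h1
    exact h1
  rw [e1, e2]
  have e4 : 0 < (N * (1 - b ^ 2 * X) - a * X * W) / ‖1 - (b : ℂ) * w‖ ^ 2 :=
    div_pos (by linarith) hD
  have e5 : (N * (1 - b ^ 2 * X) - a * X * W) / ‖1 - (b : ℂ) * w‖ ^ 2 =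
      (1 - b ^ 2 * X) / ‖1 - (b : ℂ) * w‖ ^ 2 * N - a * X * W / ‖1 - (b : ℂ) * w‖ ^ 2 := by
    ring
  rw [e5] at e4
  linarith

theorem ex_mem {e f : E} (he : ‖e‖ = 1) (hf : ‖f‖ = 1) (hef : inner ℂ e f = (0 : ℂ))
    {b : ℝ} (hb0 : 0 ≤ b) (hb1 : b < 1) :
    exM e f (2 * √(1 - b ^ 2)) b ∈ caratheodory E := by
  refine ⟨?_, exM_zero _ _ _ _, exM_fderiv _ _ _ _, fun z hz hz0 => ex_pos he hf hef hb0 hb1 hz hz0⟩
  intro z hz
  rw [mem_ball_zero_iff] at hz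
  apply (exM_diffAt e f _ ?_).differentiableWithinAt
  intro h
  have h2 : (b : ℂ) * inner ℂ e z = 1 := by linear_combination -h
  have h3 : ‖(b : ℂ) * inner ℂ e z‖ = 1 := by rw [h2, norm_one]
  rw [norm_mul, Complex.norm_real, Real.norm_of_nonneg hb0] at h3
  have h4 := norm_in_le he z
  nlinarith [norm_nonneg (inner ℂ e z : ℂ)]

/-- The derivative of the map in the direction of the axis. -/
theorem ex_deriv {e f : E} (he : ‖e‖ = 1)
    (a : ℝ) {b r : ℝ} (hbr : 1 - b * r ≠ 0) :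
    fderiv ℂ (exM e f a b) ((r : ℂ) • e) e =
      ((((1 + 2 * b * r - b ^ 2 * r ^ 2) / (1 - b * r) ^ 2 : ℝ)) : ℂ) • e +
      (((2 * a * r / (1 - b * r) ^ 3 : ℝ)) : ℂ) • f := by
  have hee : inner ℂ e e = (1 : ℂ) := by rw [inner_self_eq_norm_sq_to_K, he]; norm_num
  have hin : ∀ ζ : ℂ, (inner ℂ e (ζ • e) : ℂ) = ζ := by
    intro ζ; rw [inner_smul_right, hee, mul_one]
  have hne : (1 - (b : ℂ) * (r : ℂ)) ≠ 0 := by
    have : ((1 - b * r : ℝ) : ℂ) ≠ 0 := by exact_mod_cast hbr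
    push_cast at this
    exact this
  have hd : DifferentiableAt ℂ (exM e f a b) ((r : ℂ) • e) := by
    apply exM_diffAt
    rw [hin]
    exact hne
  have h1 : HasDerivAt (fun ζ : ℂ => exM e f a b (ζ • e)) (fderiv ℂ (exM e f a b) ((r : ℂ) • e) e)
      (r : ℂ) := by
    have h2 : HasDerivAt (fun ζ : ℂ => ζ • e) e (r : ℂ) := by
      simpa using (hasDerivAt_id (r : ℂ)).smul_const e
    exact hd.hasFDerivAt.comp_hasDerivAt (r : ℂ) h2
  have h3 : (fun ζ : ℂ => exM e f a b (ζ • e)) = fun ζ : ℂ =>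
      (((1 + b * ζ) / (1 - b * ζ)) * ζ) • e + (ζ * (a * ζ / (1 - b * ζ) ^ 2)) • f := by
    funext ζ
    unfold exM
    rw [hin, smul_smul]
  rw [h3] at h1
  have g1 : HasDerivAt (fun ζ : ℂ => 1 + (b : ℂ) * ζ) b (r : ℂ) := by
    simpa using ((hasDerivAt_id (r : ℂ)).const_mul (b : ℂ)).const_add 1
  have g2 : HasDerivAt (fun ζ : ℂ => 1 - (b : ℂ) * ζ) (-b) (r : ℂ) := by
    simpa using ((hasDerivAt_id (r : ℂ)).const_mul (b : ℂ)).const_sub 1
  have g3 : HasDerivAt (fun ζ : ℂ => (1 + (b : ℂ) * ζ) / (1 - (b : ℂ) * ζ) * ζ)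
      (((b * (1 - b * r) - (1 + b * r) * (-b)) / (1 - b * r) ^ 2) * r +
        (1 + (b : ℂ) * r) / (1 - (b : ℂ) * r) * 1) (r : ℂ) :=
    (g1.div g2 hne).mul (hasDerivAt_id (r : ℂ))
  have g4 : HasDerivAt (fun ζ : ℂ => (1 - (b : ℂ) * ζ) ^ 2)
      (2 * (1 - (b : ℂ) * r) * (-b)) (r : ℂ) := by
    have := g2.fun_pow 2
    simpa using this
  have g5 : HasDerivAt (fun ζ : ℂ => (a : ℂ) * ζ) a (r : ℂ) := by
    simpa using (hasDerivAt_id (r : ℂ)).const_mul (a : ℂ)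
  have g6 : HasDerivAt (fun ζ : ℂ => ζ * (a * ζ / (1 - (b : ℂ) * ζ) ^ 2))
      (1 * (a * r / (1 - (b : ℂ) * r) ^ 2) +
        r * ((a * (1 - (b : ℂ) * r) ^ 2 - a * r * (2 * (1 - (b : ℂ) * r) * (-b))) /
          ((1 - (b : ℂ) * r) ^ 2) ^ 2)) (r : ℂ) :=
    (hasDerivAt_id (r : ℂ)).mul (g5.div g4 (pow_ne_zero 2 hne))
  have g7 := (g3.smul_const e).add (g6.smul_const f)
  rw [h1.unique g7]
  congr 1
  · congr 1
    push_cast
    field_simp
    ring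
  · congr 1
    push_cast
    field_simp
    ring

end Pool.Agent.H310.Dist
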