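import Pool.Agent.H310.Dist.Lower

set_option autoImplicit false

/-!
Carathéodory family of the ball: two-sided bounds for the distortion `sup ‖Dh(z)‖`.
-/

namespace Pool.Agent.H310.Dist

open Metric Set Filter Topology Pool.Agent.Y965.CF
open Pool.Agent.Results.MP_ea326e_an.AllHilbertSpaces (caratheodory growth valuesAt)

universe u

variable {E : Type u} [NormedAddCommGroup E] [InnerProductSpace ℂ E]

/-- All the values `‖Dh(z)‖` (operator norm) with `h` in the Carathéodory family, `‖z‖ = r`. -/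
def distortionSet (E : Type u) [NormedAddCommGroup E] [InnerProductSpace ℂ E] (r : ℝ) : Set ℝ :=
  {x | ∃ h ∈ caratheodory E, ∃ z : E, ‖z‖ = r ∧ x = ‖fderiv ℂ h z‖}

/-- The sharp distortion bound `d(r)` of the problem. -/
noncomputable def distortion (E : Type u) [NormedAddCommGroup E] [InnerProductSpace ℂ E]
    (r : ℝ) : ℝ := sSup (distortionSet E r)

theorem exists_unit (hE : 2 ≤ Module.rank ℂ E) : ∃ e : E, ‖e‖ = 1 := by
  have hne : ∃ w : E, w ≠ 0 := by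
    by_contra hcon
    push Not at hcon
    have h1 : Module.rank ℂ E ≤ 1 := rank_le_one_iff.2 ⟨0, fun v => ⟨0, by rw [hcon v, smul_zero]⟩⟩
    have h2 : (2 : Cardinal) ≤ 1 := hE.trans h1
    exact absurd h2 (by norm_num)
  obtain ⟨w, hw⟩ := hne
  have hn : (0 : ℝ) < ‖w‖ := norm_pos_iff.2 hw
  refine ⟨((‖w‖⁻¹ : ℝ) : ℂ) • w, ?_⟩
  rw [norm_smul, Complex.norm_real, Real.norm_of_nonneg (by positivity)]
  exact inv_mul_cancel₀ hn.ne'

theorem growth_nonneg (hE : 2 ≤ Module.rank ℂ E) {ρ : ℝ} (hρ : ρ ∈ Ioo (0 : ℝ) 1) :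
    0 ≤ growth E ρ := by
  obtain ⟨p, hp, e⟩ := Pool.Agent.Results.MP_ea326e_an.SharpGrowth.radius_surj hρ
  have h1 := Pool.Agent.Results.MP_ea326e_an.AllHilbertSpaces.growth_eq hE hp
  rw [show Pool.Agent.Results.MP_ea326e_an.AllHilbertSpaces.radius p = ρ from e] at h1
  rw [h1]
  exact Pool.Agent.Results.MP_ea326e_an.SharpGrowth.maxNorm_nonneg p

theorem growth_bound (hE : 2 ≤ Module.rank ℂ E) {h : E → E} (hh : h ∈ caratheodory E) {ρ : ℝ}
    (hρ : ρ ∈ Ioo (0 : ℝ) 1) {w : E} (hw : ‖w‖ = ρ) : ‖h w‖ ≤ growth E ρ := by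
  obtain ⟨p, hp, e⟩ := Pool.Agent.Results.MP_ea326e_an.SharpGrowth.radius_surj hρ
  have e' : Pool.Agent.Results.MP_ea326e_an.AllHilbertSpaces.radius p = ρ := e
  have h1 := Pool.Agent.Results.MP_ea326e_an.AllHilbertSpaces.growth_eq hE hp
  rw [e'] at h1
  rw [h1]
  exact (Pool.Agent.Results.MP_ea326e_an.AllHilbertSpaces.isGreatest_at hE hp
    (hw.trans e'.symm)).2 ⟨h, hh, rfl⟩

theorem diffAt {h : E → E} (hh : h ∈ caratheodory E) {w : E} (hw : ‖w‖ < 1) :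
    DifferentiableAt ℂ h w :=
  (hh.1 w (by simpa using hw)).differentiableAt (isOpen_ball.mem_nhds (by simpa using hw))

theorem growth_bound_le (hE : 2 ≤ Module.rank ℂ E) {h : E → E} (hh : h ∈ caratheodory E) {ρ : ℝ}
    (hρ : ρ ∈ Ioo (0 : ℝ) 1) {w : E} (hw : ‖w‖ ≤ ρ) : ‖h w‖ ≤ growth E ρ := by
  by_cases hw0 : w = 0
  · rw [hw0, hh.2.1, norm_zero]
    exact growth_nonneg hE hρ
  have hn : 0 < ‖w‖ := norm_pos_iff.2 hw0
  set w' : E := ((ρ / ‖w‖ : ℝ) : ℂ) • w with hw'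
  have hn' : ‖w'‖ = ρ := by
    rw [hw', norm_smul, Complex.norm_real, Real.norm_of_nonneg (div_nonneg hρ.1.le hn.le)]
    field_simp
  have key : ∀ ζ ∈ closure (ball (0 : ℂ) 1), ‖h (ζ • w')‖ ≤ growth E ρ := by
    intro ζ hζ
    apply Complex.norm_le_of_forall_mem_frontier_norm_le (U := ball (0 : ℂ) 1)
      (f := fun ζ : ℂ => h (ζ • w')) isBounded_ball _ _ hζ
    · apply DifferentiableOn.diffContOnCl
      intro x hx
      rw [closure_ball _ one_ne_zero, mem_closedBall_zero_iff] at hx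
      apply DifferentiableAt.differentiableWithinAt
      have h2 : DifferentiableAt ℂ h (x • w') := by
        apply diffAt hh
        rw [norm_smul, hn']
        calc ‖x‖ * ρ ≤ 1 * ρ := mul_le_mul_of_nonneg_right hx hρ.1.le
          _ < 1 := by linarith [hρ.2]
      exact h2.comp x (differentiableAt_id.smul_const w')
    · intro x hx
      rw [frontier_ball _ one_ne_zero, mem_sphere_zero_iff_norm] at hx
      apply growth_bound hE hh hρ
      rw [norm_smul, hn', hx, one_mul]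
  have h3 := key (((‖w‖ / ρ : ℝ) : ℂ)) (by
    rw [closure_ball _ one_ne_zero, mem_closedBall_zero_iff, Complex.norm_real,
      Real.norm_of_nonneg (div_nonneg hn.le hρ.1.le)]
    exact (div_le_one hρ.1).2 hw)
  have h4 : (((‖w‖ / ρ : ℝ) : ℂ)) • w' = w := by
    rw [hw', smul_smul, ← Complex.ofReal_mul]
    have : ‖w‖ / ρ * (ρ / ‖w‖) = 1 := by
      have := hρ.1.ne'
      field_simp
    rw [this, Complex.ofReal_one, one_smul]
  rwa [h4] at h3

theorem fderiv_bound (hE : 2 ≤ Module.rank ℂ E) {h : E → E} (hh : h ∈ caratheodory E) {r δ : ℝ}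
    (hr : 0 < r) (hδ : 0 < δ) (hrδ : r + δ < 1) {z : E} (hz : ‖z‖ = r) :
    ‖fderiv ℂ h z‖ ≤ growth E (r + δ) / δ := by
  have hρ : r + δ ∈ Ioo (0 : ℝ) 1 := ⟨by linarith, hrδ⟩
  have hg := growth_nonneg hE hρ
  apply ContinuousLinearMap.opNorm_le_bound _ (div_nonneg hg hδ.le)
  intro x
  by_cases hx0 : x = 0
  · rw [hx0, map_zero, norm_zero, mul_zero]
  have hn : 0 < ‖x‖ := norm_pos_iff.2 hx0
  have hR : 0 < δ / ‖x‖ := div_pos hδ hn
  have hle : ∀ ζ : ℂ, ‖ζ‖ ≤ δ / ‖x‖ → ‖z + ζ • x‖ ≤ r + δ := by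
    intro ζ hζ
    calc ‖z + ζ • x‖ ≤ ‖z‖ + ‖ζ • x‖ := norm_add_le _ _
      _ = r + ‖ζ‖ * ‖x‖ := by rw [hz, norm_smul]
      _ ≤ r + δ / ‖x‖ * ‖x‖ := by
        have := mul_le_mul_of_nonneg_right hζ hn.le
        linarith
      _ = r + δ := by rw [div_mul_cancel₀ _ hn.ne']
  have hdc : DiffContOnCl ℂ (fun ζ : ℂ => h (z + ζ • x)) (ball (0 : ℂ) (δ / ‖x‖)) := by
    apply DifferentiableOn.diffContOnCl
    intro y hy
    rw [closure_ball _ hR.ne', mem_closedBall_zero_iff] at hy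
    apply DifferentiableAt.differentiableWithinAt
    have h2 : DifferentiableAt ℂ h (z + y • x) := diffAt hh ((hle y hy).trans_lt hrδ)
    exact h2.comp y ((differentiableAt_id.smul_const x).const_add z)
  have h1 := Complex.norm_deriv_le_of_forall_mem_sphere_norm_le (c := (0 : ℂ)) (C := growth E (r + δ))
    hR hdc (by
      intro y hy
      rw [mem_sphere_zero_iff_norm] at hy
      exact growth_bound_le hE hh hρ (hle y hy.le))
  have h2 : HasDerivAt (fun ζ : ℂ => h (z + ζ • x)) (fderiv ℂ h z x) 0 := by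
    have h3 : HasDerivAt (fun ζ : ℂ => z + ζ • x) x (0 : ℂ) := by
      simpa using ((hasDerivAt_id (0 : ℂ)).smul_const x).const_add z
    have h4 : HasFDerivAt h (fderiv ℂ h z) (z + (0 : ℂ) • x) := by
      rw [zero_smul, add_zero]
      exact (diffAt hh (by rw [hz]; linarith)).hasFDerivAt
    exact h4.comp_hasDerivAt (0 : ℂ) h3
  rw [h2.deriv] at h1
  calc ‖fderiv ℂ h z x‖ ≤ growth E (r + δ) / (δ / ‖x‖) := h1
    _ = growth E (r + δ) / δ * ‖x‖ := by field_simp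

theorem bddAbove (hE : 2 ≤ Module.rank ℂ E) {r : ℝ} (hr : r ∈ Ioo (0 : ℝ) 1) :
    BddAbove (distortionSet E r) := by
  refine ⟨growth E (r + (1 - r) / 2) / ((1 - r) / 2), ?_⟩
  rintro x ⟨h, hh, z, hz, rfl⟩
  exact fderiv_bound hE hh hr.1 (by linarith [hr.2]) (by linarith [hr.2]) hz

theorem id_mem : (fun z : E => z) ∈ caratheodory E := by
  refine ⟨differentiableOn_id, rfl, fderiv_fun_id, fun z _ hz0 => ?_⟩
  have h1 : (inner ℂ z z : ℂ).re = ‖z‖ ^ 2 := by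
    rw [inner_self_eq_norm_sq_to_K]
    norm_cast
  rw [h1]
  have := norm_pos_iff.2 hz0
  positivity

theorem nonempty (hE : 2 ≤ Module.rank ℂ E) {r : ℝ} (hr : r ∈ Ioo (0 : ℝ) 1) :
    (distortionSet E r).Nonempty := by
  obtain ⟨e, he⟩ := exists_unit hE
  refine ⟨_, _, id_mem, (r : ℂ) • e, ?_, rfl⟩
  rw [norm_smul, he, Complex.norm_real, Real.norm_of_nonneg hr.1.le, mul_one]

theorem upper (hE : 2 ≤ Module.rank ℂ E) {r δ : ℝ} (hr : r ∈ Ioo (0 : ℝ) 1)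
    (hδ : 0 < δ) (hrδ : r + δ < 1) : distortion E r ≤ growth E (r + δ) / δ := by
  apply csSup_le (nonempty hE hr)
  rintro x ⟨h, hh, z, hz, rfl⟩
  exact fderiv_bound hE hh hr.1 hδ hrδ hz

theorem lower (hE : 2 ≤ Module.rank ℂ E) {r b : ℝ} (hr : r ∈ Ioo (0 : ℝ) 1)
    (hb : b ∈ Ico (0 : ℝ) 1) :
    √(((1 + 2 * b * r - b ^ 2 * r ^ 2) / (1 - b * r) ^ 2) ^ 2 +
      (4 * √(1 - b ^ 2) * r / (1 - b * r) ^ 3) ^ 2) ≤ distortion E r := by
  obtain ⟨e, he⟩ := exists_unit hE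
  obtain ⟨f, hf, hef⟩ := Pool.Agent.Results.MP_ea326e_an.AllHilbertSpaces.exists_orth hE he
  have hbr : 1 - b * r ≠ 0 := by
    have := hr.1; have := hr.2; have := hb.1; have := hb.2
    nlinarith
  have h1 := ex_deriv (f := f) he (2 * √(1 - b ^ 2)) hbr
  set A : ℝ := (1 + 2 * b * r - b ^ 2 * r ^ 2) / (1 - b * r) ^ 2 with hA
  have h2 : 2 * (2 * √(1 - b ^ 2)) * r / (1 - b * r) ^ 3 =
      4 * √(1 - b ^ 2) * r / (1 - b * r) ^ 3 := by ring
  rw [h2] at h1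
  set B : ℝ := 4 * √(1 - b ^ 2) * r / (1 - b * r) ^ 3 with hB
  have h3 : ‖(A : ℂ) • e + (B : ℂ) • f‖ ^ 2 = A ^ 2 + B ^ 2 := by
    rw [Pool.Agent.Helper540.norm_pair he hef, hf, Complex.norm_real, Complex.norm_real]
    simp
  have h4 : √(A ^ 2 + B ^ 2) = ‖(A : ℂ) • e + (B : ℂ) • f‖ := by
    rw [← h3, Real.sqrt_sq (norm_nonneg _)]
  rw [h4, ← h1]
  have h5 := (fderiv ℂ (exM e f (2 * √(1 - b ^ 2)) b) ((r : ℂ) • e)).le_opNorm e
  rw [he, mul_one] at h5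
  refine h5.trans (le_csSup (bddAbove hE hr) ⟨_, ex_mem he hf hef hb.1 hb.2, (r : ℂ) • e, ?_, rfl⟩)
  rw [norm_smul, he, Complex.norm_real, Real.norm_of_nonneg hr.1.le, mul_one]

end Pool.Agent.H310.Dist
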