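import Pool.Agent.H310.Dist.Cert2
import Pool.Agent.H310.Dist.Asy

set_option autoImplicit false

/-!
Carathéodory family of the ball: a sharper upper bound of the distortion.
-/

namespace Pool.Agent.H310.Dist

open Metric Set Filter Topology Pool.Agent.Helper540
open Pool.Agent.Results.MP_ea326e_an.AllHilbertSpaces (caratheodory growth valuesAt)

universe u

variable {E : Type u} [NormedAddCommGroup E] [InnerProductSpace ℂ E]

/-- Limit form of `cert2`, with `σ = √(1 - ρ²)`. -/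
theorem cert2_lim {h : E → E} (hh : h ∈ caratheodory E) {e y : E} (he : ‖e‖ = 1)
    (hey : inner ℂ e y = (0 : ℂ)) (hy : ‖y‖ ≤ 1) {r ρ : ℝ} (hr : 0 < r) (hrρ : r < ρ)
    (hρ1 : ρ < 1) :
    ρ * (1 - (r / ρ) ^ 2) ^ 2 / (r / ρ) ^ 2 * (inner ℂ y (fderiv ℂ h ((r : ℂ) • e) e)).re ≤
      1 / √(1 - ρ ^ 2) + 2 * (1 - (r / ρ) ^ 2) / (r / ρ) ^ 3 * ‖h ((r : ℂ) • e)‖ := by
  have hρ : 0 < ρ := hr.trans hrρ
  set s := r / ρ with hs
  have hs0 : 0 < s := div_pos hr hρ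
  have hs1 : s < 1 := (div_lt_one hρ).2 hrρ
  have hsρ : s * ρ = r := by rw [hs]; field_simp
  have hτ : 0 < 1 - ρ ^ 2 := by nlinarith
  set τ := √(1 - ρ ^ 2) with hτd
  have hτ0 : 0 < τ := Real.sqrt_pos.2 hτ
  have hτ2 : τ ^ 2 = 1 - ρ ^ 2 := Real.sq_sqrt hτ.le
  set X := ρ * (1 - s ^ 2) ^ 2 / s ^ 2 * (inner ℂ y (fderiv ℂ h ((r : ℂ) • e) e)).re with hX
  set Y := 2 * (1 - s ^ 2) / s ^ 3 * ‖h ((r : ℂ) • e)‖ with hY
  have key : ∀ σ ∈ Ioo 0 τ, σ * (X - Y) ≤ ρ ^ 2 + σ ^ 2 := by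
    intro σ hσ
    have h1 := cert2 hh he (y := -y) (by rw [inner_neg_right, hey, neg_zero])
      (by rwa [norm_neg]) hs0 hs1 hρ hσ.1.le
      (by have := pow_lt_pow_left₀ hσ.2 hσ.1.le two_ne_zero; linarith)
    rw [hsρ, inner_neg_left, inner_neg_left, Complex.neg_re, Complex.neg_re] at h1
    have h2 : (inner ℂ y (h ((r : ℂ) • e))).re ≤ ‖h ((r : ℂ) • e)‖ := by
      calc (inner ℂ y (h ((r : ℂ) • e))).re ≤ ‖inner ℂ y (h ((r : ℂ) • e))‖ := Complex.re_le_norm _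
        _ ≤ ‖y‖ * ‖h ((r : ℂ) • e)‖ := norm_inner_le_norm _ _
        _ ≤ 1 * ‖h ((r : ℂ) • e)‖ := mul_le_mul_of_nonneg_right hy (norm_nonneg _)
        _ = _ := one_mul _
    have h3 : 0 ≤ 2 * (1 - s ^ 2) / s ^ 3 := by
      apply div_nonneg _ (by positivity)
      nlinarith
    have h4 : 2 * (1 - s ^ 2) / s ^ 3 * (inner ℂ y (h ((r : ℂ) • e))).re ≤ Y :=
      mul_le_mul_of_nonneg_left h2 h3
    calc σ * (X - Y) ≤ σ * (X - 2 * (1 - s ^ 2) / s ^ 3 * (inner ℂ y (h ((r : ℂ) • e))).re) := by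
          apply mul_le_mul_of_nonneg_left _ hσ.1.le
          linarith
      _ = σ * (2 * (1 - s ^ 2) / s ^ 3 * -(inner ℂ y (h ((r : ℂ) • e))).re -
          ρ * (1 - s ^ 2) ^ 2 / s ^ 2 * -(inner ℂ y (fderiv ℂ h ((r : ℂ) • e) e)).re) := by
          rw [hX]; ring
      _ ≤ _ := h1
  have h5 : τ * (X - Y) ≤ ρ ^ 2 + τ ^ 2 := by
    have h6 : ContinuousAt (fun σ : ℝ => ρ ^ 2 + σ ^ 2 - σ * (X - Y)) τ := by fun_prop
    have h7 := h6.tendsto.mono_left (nhdsWithin_le_nhds (s := Iio τ))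
    have h8 : 0 ≤ ρ ^ 2 + τ ^ 2 - τ * (X - Y) := by
      apply ge_of_tendsto h7
      filter_upwards [Ioo_mem_nhdsLT hτ0] with σ hσ
      linarith [key σ hσ]
    linarith
  have h9 : X - Y ≤ 1 / τ := by
    rw [le_div_iff₀ hτ0]
    linarith
  linarith

/-- The component of `Dh(re)e` orthogonal to `e`. -/
theorem orth_bound {h : E → E} (hh : h ∈ caratheodory E) {e : E} (he : ‖e‖ = 1) {r ρ : ℝ}
    (hr : 0 < r) (hrρ : r < ρ) (hρ1 : ρ < 1) :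
    ‖fderiv ℂ h ((r : ℂ) • e) e - (inner ℂ e (fderiv ℂ h ((r : ℂ) • e) e)) • e‖ ≤
      (1 / √(1 - ρ ^ 2) + 2 * (1 - (r / ρ) ^ 2) / (r / ρ) ^ 3 * ‖h ((r : ℂ) • e)‖) /
        (ρ * (1 - (r / ρ) ^ 2) ^ 2 / (r / ρ) ^ 2) := by
  have hρ : 0 < ρ := hr.trans hrρ
  have hs0 : 0 < r / ρ := div_pos hr hρ
  have hs1 : r / ρ < 1 := (div_lt_one hρ).2 hrρ
  have hq : 0 < 1 - (r / ρ) ^ 2 := by nlinarith
  have hc : 0 < ρ * (1 - (r / ρ) ^ 2) ^ 2 / (r / ρ) ^ 2 := by positivity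
  have hτ : 0 < 1 - ρ ^ 2 := by nlinarith
  set D := fderiv ℂ h ((r : ℂ) • e) e with hD
  set w := D - (inner ℂ e D) • e with hw
  have hee : inner ℂ e e = (1 : ℂ) := by rw [inner_self_eq_norm_sq_to_K, he]; norm_num
  have hew : inner ℂ e w = (0 : ℂ) := by
    rw [hw, inner_sub_right, inner_smul_right, hee]; ring
  have hwe : inner ℂ w e = (0 : ℂ) := by rw [← inner_conj_symm, hew, map_zero]
  have hwD : inner ℂ w D = ((‖w‖ ^ 2 : ℝ) : ℂ) := by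
    have h2 : D = w + (inner ℂ e D) • e := by rw [hw]; abel
    conv_lhs => rw [h2]
    rw [inner_add_right, inner_smul_right, hwe, inner_self_eq_norm_sq_to_K]
    simp
  rw [le_div_iff₀ hc]
  by_cases hw0 : w = 0
  · rw [hw0, norm_zero, zero_mul]
    positivity
  have hn : 0 < ‖w‖ := norm_pos_iff.2 hw0
  set y : E := ((‖w‖⁻¹ : ℝ) : ℂ) • w with hy
  have hyn : ‖y‖ ≤ 1 := by
    rw [hy, norm_smul, Complex.norm_real, Real.norm_of_nonneg (by positivity),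
      inv_mul_cancel₀ hn.ne']
  have hey : inner ℂ e y = (0 : ℂ) := by rw [hy, inner_smul_right, hew, mul_zero]
  have h1 := cert2_lim hh he hey hyn hr hrρ hρ1
  have h2 : (inner ℂ y D).re = ‖w‖ := by
    rw [hy, inner_smul_left, Complex.conj_ofReal, hwD, ← Complex.ofReal_mul, Complex.ofReal_re]
    field_simp
  rw [← hD, h2] at h1
  linarith

/-- Cauchy's estimate in one direction. -/
theorem dir_bound (hE : 2 ≤ Module.rank ℂ E) {h : E → E} (hh : h ∈ caratheodory E) {ρ R : ℝ}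
    (hρ : ρ ∈ Ioo (0 : ℝ) 1) (hR : 0 < R) {z x : E}
    (hle : ∀ ζ : ℂ, ‖ζ‖ ≤ R → ‖z + ζ • x‖ ≤ ρ) : ‖fderiv ℂ h z x‖ ≤ growth E ρ / R := by
  have hdc : DiffContOnCl ℂ (fun ζ : ℂ => h (z + ζ • x)) (ball (0 : ℂ) R) := by
    apply DifferentiableOn.diffContOnCl
    intro y hy
    rw [closure_ball _ hR.ne', mem_closedBall_zero_iff] at hy
    apply DifferentiableAt.differentiableWithinAt
    have h2 : DifferentiableAt ℂ h (z + y • x) := diffAt hh ((hle y hy).trans_lt hρ.2)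
    exact h2.comp y ((differentiableAt_id.smul_const x).const_add z)
  have h1 := Complex.norm_deriv_le_of_forall_mem_sphere_norm_le (c := (0 : ℂ)) (C := growth E ρ)
    hR hdc (by
      intro y hy
      rw [mem_sphere_zero_iff_norm] at hy
      exact growth_bound_le hE hh hρ (hle y hy.le))
  have hz : ‖z‖ ≤ ρ := by simpa using hle 0 (by simpa using hR.le)
  have h2 : HasDerivAt (fun ζ : ℂ => h (z + ζ • x)) (fderiv ℂ h z x) 0 := by
    have h3 : HasDerivAt (fun ζ : ℂ => z + ζ • x) x (0 : ℂ) := by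
      simpa using ((hasDerivAt_id (0 : ℂ)).smul_const x).const_add z
    have h4 : HasFDerivAt h (fderiv ℂ h z) (z + (0 : ℂ) • x) := by
      rw [zero_smul, add_zero]
      exact (diffAt hh (hz.trans_lt hρ.2)).hasFDerivAt
    exact h4.comp_hasDerivAt (0 : ℂ) h3
  rwa [h2.deriv] at h1

/-- The derivative in directions orthogonal to `e`. -/
theorem trans_bound (hE : 2 ≤ Module.rank ℂ E) {h : E → E} (hh : h ∈ caratheodory E) {r ρ : ℝ}
    (hr : 0 < r) (hrρ : r < ρ) (hρ1 : ρ < 1) {e x : E} (he : ‖e‖ = 1)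
    (hex : inner ℂ e x = (0 : ℂ)) (hx : ‖x‖ ≤ 1) :
    ‖fderiv ℂ h ((r : ℂ) • e) x‖ ≤ growth E ρ / √(ρ ^ 2 - r ^ 2) := by
  have hq : 0 < ρ ^ 2 - r ^ 2 := by nlinarith
  have hρ : ρ ∈ Ioo (0 : ℝ) 1 := ⟨hr.trans hrρ, hρ1⟩
  apply dir_bound hE hh hρ (Real.sqrt_pos.2 hq)
  intro ζ hζ
  have h1 : ‖(r : ℂ) • e + ζ • x‖ ^ 2 = r ^ 2 + ‖ζ‖ ^ 2 * ‖x‖ ^ 2 := by
    rw [norm_pair he hex, Complex.norm_real, Real.norm_of_nonneg hr.le]
  have h2 : ‖ζ‖ ^ 2 ≤ ρ ^ 2 - r ^ 2 := by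
    rw [← Real.sq_sqrt hq.le]
    exact pow_le_pow_left₀ (norm_nonneg _) hζ 2
  have h3 : ‖ζ‖ ^ 2 * ‖x‖ ^ 2 ≤ (ρ ^ 2 - r ^ 2) * 1 := by
    apply mul_le_mul h2 _ (by positivity) hq.le
    nlinarith [norm_nonneg x]
  have h4 : ‖(r : ℂ) • e + ζ • x‖ ^ 2 ≤ ρ ^ 2 := by rw [h1]; linarith
  exact (pow_le_pow_iff_left₀ (norm_nonneg _) hρ.1.le two_ne_zero).1 h4

/-- A crude bound on the slices. -/
theorem slice_bound {h : E → E} (hh : h ∈ caratheodory E) {e : E} (he : ‖e‖ = 1) {ζ : ℂ}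
    (hζ : ‖ζ‖ < 1) : ‖inner ℂ e (h (ζ • e))‖ ≤ 9 / (2 * (1 - ‖ζ‖)) := by
  have h1ζ : 0 < 1 - ‖ζ‖ := by linarith
  by_cases hz0 : ζ = 0
  · rw [hz0, zero_smul, hh.2.1, inner_zero_right, norm_zero]
    norm_num
  set t := ‖ζ‖ with ht
  have ht0 : 0 < t := norm_pos_iff.2 hz0
  set e' : E := (ζ / (t : ℂ)) • e with he'
  have htn : ‖(t : ℂ)‖ = t := by rw [Complex.norm_real, Real.norm_of_nonneg ht0.le]
  have htc : (t : ℂ) ≠ 0 := by exact_mod_cast ht0.ne'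
  have hun : ‖ζ / (t : ℂ)‖ = 1 := by rw [norm_div, htn, ← ht, div_self ht0.ne']
  have he'n : ‖e'‖ = 1 := by rw [he', norm_smul, hun, he, one_mul]
  have hze : (t : ℂ) • e' = ζ • e := by
    rw [he', smul_smul]
    congr 1
    field_simp
  have h2 := cert_real hh.1 hh.2.1 hh.2.2.1 hh.2.2.2 he'n (r := t) (S := t ^ 2) (x := t / 2) ht0 le_rfl
    (by nlinarith) (by positivity) (by linarith)
  rw [sub_self, Real.sqrt_zero, zero_mul, mul_zero, add_zero, Real.sqrt_sq ht0.le, hze] at h2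
  have h3 : ‖inner ℂ e' (h (ζ • e))‖ = ‖inner ℂ e (h (ζ • e))‖ := by
    rw [he', inner_smul_left, norm_mul, RCLike.norm_conj, hun, one_mul]
  rw [h3] at h2
  rw [le_div_iff₀ (by positivity)]
  have h4 := norm_nonneg (inner ℂ e (h (ζ • e)))
  generalize ‖inner ℂ e (h (ζ • e))‖ = q at h2 h4 ⊢
  have h5 : (t ^ 2) * ((1 - t ^ 2) * q / 2) ≤ t ^ 2 * ((t ^ 2 + t / 2) * (1 + t / 2)) := by
    linarith
  have h6 := le_of_mul_le_mul_left h5 (by positivity)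
  have h7 : (t ^ 2 + t / 2) * (1 + t / 2) ≤ 9 / 4 := by nlinarith
  have h8 : (1 - t) * q ≤ (1 - t ^ 2) * q := by
    apply mul_le_mul_of_nonneg_right _ h4
    nlinarith
  linarith

/-- The component of `Dh(re)e` along `e`. -/
theorem along_bound {h : E → E} (hh : h ∈ caratheodory E) {e : E} (he : ‖e‖ = 1) {r : ℝ}
    (hr : r ∈ Ioo (0 : ℝ) 1) :
    ‖inner ℂ e (fderiv ℂ h ((r : ℂ) • e) e)‖ ≤ 18 / (1 - r) ^ 2 := by
  have h1r : 0 < 1 - r := by linarith [hr.2]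
  have hR : 0 < (1 - r) / 2 := by positivity
  have hin : ∀ ζ : ℂ, ‖ζ‖ ≤ (1 - r) / 2 → ‖(r : ℂ) + ζ‖ ≤ (1 + r) / 2 := by
    intro ζ hζ
    calc ‖(r : ℂ) + ζ‖ ≤ ‖(r : ℂ)‖ + ‖ζ‖ := norm_add_le _ _
      _ ≤ r + (1 - r) / 2 := by
        rw [Complex.norm_real, Real.norm_of_nonneg hr.1.le]
        linarith
      _ = _ := by ring
  have hdc : DiffContOnCl ℂ (fun ζ : ℂ => inner ℂ e (h (((r : ℂ) + ζ) • e)))
      (ball (0 : ℂ) ((1 - r) / 2)) := by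
    apply DifferentiableOn.diffContOnCl
    intro y hy
    rw [closure_ball _ hR.ne', mem_closedBall_zero_iff] at hy
    apply DifferentiableAt.differentiableWithinAt
    have h2 : DifferentiableAt ℂ h (((r : ℂ) + y) • e) := by
      apply diffAt hh
      rw [norm_smul, he, mul_one]
      have := hin y hy
      linarith
    have h3 : DifferentiableAt ℂ (fun ζ : ℂ => ((r : ℂ) + ζ) • e) y := by fun_prop
    exact ((innerSL ℂ e).differentiableAt).comp y (h2.comp y h3)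
  have h1 := Complex.norm_deriv_le_of_forall_mem_sphere_norm_le (c := (0 : ℂ)) (C := 9 / (1 - r))
    hR hdc (by
      intro y hy
      rw [mem_sphere_zero_iff_norm] at hy
      have h2 := hin y hy.le
      refine (slice_bound hh he (by linarith)).trans ?_
      apply div_le_div_of_nonneg_left (by norm_num) h1r
      linarith)
  have h2 : HasDerivAt (fun ζ : ℂ => inner ℂ e (h (((r : ℂ) + ζ) • e)))
      (inner ℂ e (fderiv ℂ h ((r : ℂ) • e) e)) 0 := by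
    have h3 : HasDerivAt (fun ζ : ℂ => ((r : ℂ) + ζ) • e) e (0 : ℂ) := by
      simpa using ((hasDerivAt_id (0 : ℂ)).const_add (r : ℂ)).smul_const e
    have h4 : HasFDerivAt h (fderiv ℂ h ((r : ℂ) • e)) (((r : ℂ) + 0) • e) := by
      rw [add_zero]
      apply (diffAt hh _).hasFDerivAt
      rw [norm_smul, he, Complex.norm_real, Real.norm_of_nonneg hr.1.le]
      linarith [hr.2]
    exact ((innerSL ℂ e).hasFDerivAt).comp_hasDerivAt (0 : ℂ) (h4.comp_hasDerivAt (0 : ℂ) h3)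
  rw [h2.deriv] at h1
  refine h1.trans (le_of_eq ?_)
  field_simp
  norm_num

/-- The full upper bound. -/
theorem upper2 (hE : 2 ≤ Module.rank ℂ E) {r ρ ρ' : ℝ} (hr : 0 < r) (hrρ : r < ρ) (hρ1 : ρ < 1)
    (hrρ' : r < ρ') (hρ'1 : ρ' < 1) :
    distortion E r ≤
      (1 / √(1 - ρ ^ 2) + 2 * (1 - (r / ρ) ^ 2) / (r / ρ) ^ 3 * growth E r) /
        (ρ * (1 - (r / ρ) ^ 2) ^ 2 / (r / ρ) ^ 2) + 18 / (1 - r) ^ 2 +
      growth E ρ' / √(ρ' ^ 2 - r ^ 2) := by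
  have hrI : r ∈ Ioo (0 : ℝ) 1 := ⟨hr, hrρ.trans hρ1⟩
  have hρ : 0 < ρ := hr.trans hrρ
  have hs0 : 0 < r / ρ := div_pos hr hρ
  have hs1 : r / ρ < 1 := (div_lt_one hρ).2 hrρ
  have hq : 0 < 1 - (r / ρ) ^ 2 := by nlinarith
  apply csSup_le (nonempty hE hrI)
  rintro _ ⟨h, hh, z, hz, rfl⟩
  set e : E := ((r⁻¹ : ℝ) : ℂ) • z with he
  have hen : ‖e‖ = 1 := by
    rw [he, norm_smul, Complex.norm_real, Real.norm_of_nonneg (by positivity), hz]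
    field_simp
  have hze : z = (r : ℂ) • e := by
    rw [he, smul_smul, ← Complex.ofReal_mul, mul_inv_cancel₀ hr.ne', Complex.ofReal_one, one_smul]
  have hee : inner ℂ e e = (1 : ℂ) := by rw [inner_self_eq_norm_sq_to_K, hen]; norm_num
  set D := fderiv ℂ h ((r : ℂ) • e) e with hD
  have hV : ‖h ((r : ℂ) • e)‖ ≤ growth E r := by
    apply growth_bound hE hh hrI
    rw [← hze, hz]
  have hDn : ‖D‖ ≤ (1 / √(1 - ρ ^ 2) + 2 * (1 - (r / ρ) ^ 2) / (r / ρ) ^ 3 * growth E r) /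
        (ρ * (1 - (r / ρ) ^ 2) ^ 2 / (r / ρ) ^ 2) + 18 / (1 - r) ^ 2 := by
    have h1 := orth_bound hh hen hr hrρ hρ1
    have h2 := along_bound hh hen hrI
    rw [← hD] at h1 h2
    have h3 : ‖D‖ ≤ ‖D - (inner ℂ e D) • e‖ + ‖(inner ℂ e D) • e‖ := by
      have := norm_add_le (D - (inner ℂ e D) • e) ((inner ℂ e D) • e)
      rwa [sub_add_cancel] at this
    rw [norm_smul, hen, mul_one] at h3
    have h4 : (1 / √(1 - ρ ^ 2) + 2 * (1 - (r / ρ) ^ 2) / (r / ρ) ^ 3 * ‖h ((r : ℂ) • e)‖) /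
        (ρ * (1 - (r / ρ) ^ 2) ^ 2 / (r / ρ) ^ 2) ≤
        (1 / √(1 - ρ ^ 2) + 2 * (1 - (r / ρ) ^ 2) / (r / ρ) ^ 3 * growth E r) /
        (ρ * (1 - (r / ρ) ^ 2) ^ 2 / (r / ρ) ^ 2) := by
      gcongr
    linarith
  have hG : 0 ≤ growth E ρ' / √(ρ' ^ 2 - r ^ 2) :=
    div_nonneg (growth_nonneg hE ⟨hr.trans hrρ', hρ'1⟩) (Real.sqrt_nonneg _)
  have hB := (norm_nonneg D).trans hDn
  apply ContinuousLinearMap.opNorm_le_of_unit_norm (add_nonneg hB hG)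
  intro v hv
  rw [hze]
  set x : E := v - (inner ℂ e v) • e with hx
  have hex : inner ℂ e x = (0 : ℂ) := by
    rw [hx, inner_sub_right, inner_smul_right, hee]; ring
  have hvx : v = (inner ℂ e v) • e + (1 : ℂ) • x := by rw [hx]; module
  have hvn : ‖v‖ ^ 2 = ‖(inner ℂ e v : ℂ)‖ ^ 2 + ‖x‖ ^ 2 := by
    conv_lhs => rw [hvx]
    rw [norm_pair hen hex]
    simp
  rw [hv] at hvn
  have hxn : ‖x‖ ≤ 1 := by nlinarith [norm_nonneg x, sq_nonneg ‖(inner ℂ e v : ℂ)‖]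
  have han : ‖(inner ℂ e v : ℂ)‖ ≤ 1 := by
    nlinarith [norm_nonneg (inner ℂ e v : ℂ), sq_nonneg ‖x‖]
  have h5 : fderiv ℂ h ((r : ℂ) • e) v = (inner ℂ e v) • D + fderiv ℂ h ((r : ℂ) • e) x := by
    conv_lhs => rw [hvx]
    rw [map_add, map_smul (fderiv ℂ h ((r : ℂ) • e)) (inner ℂ e v) e, one_smul]
  rw [h5]
  calc ‖(inner ℂ e v : ℂ) • D + fderiv ℂ h ((r : ℂ) • e) x‖
      ≤ ‖(inner ℂ e v : ℂ) • D‖ + ‖fderiv ℂ h ((r : ℂ) • e) x‖ := norm_add_le _ _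
    _ ≤ ‖D‖ + growth E ρ' / √(ρ' ^ 2 - r ^ 2) := by
      apply add_le_add
      · rw [norm_smul]
        exact mul_le_of_le_one_left (norm_nonneg _) han
      · exact trans_bound hE hh hr hrρ' hρ'1 hen hex hxn
    _ ≤ _ := by linarith

end Pool.Agent.H310.Dist
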